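import Pool.Agent.P8H67.IU.Stm

set_option autoImplicit false

namespace Pool.Agent.P8H62.IU

open Finset Pool.Agent.P8H67.IU

universe u

section

variable {K : Type u} [Field K] (P : Subfield K)

theorem rel_refl {l x : K} (h : x ≠ l) : (x - l) / (x - l) ∈ P := by
  rw [div_self (sub_ne_zero.2 h)]
  exact one_mem P

theorem rel_symm {l x y : K} (h : (x - l) / (y - l) ∈ P) : (y - l) / (x - l) ∈ P := by
  have := inv_mem h
  rwa [inv_div] at this

theorem rel_trans {l x y z : K} (hy : y ≠ l) (h1 : (x - l) / (y - l) ∈ P)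
    (h2 : (y - l) / (z - l) ∈ P) : (x - l) / (z - l) ∈ P := by
  have h3 := mul_mem h1 h2
  rwa [div_mul_div_cancel₀ (sub_ne_zero.2 hy)] at h3

/-- off the line -/
theorem off_line {l u l1 x y : K} (hl1 : ∀ a ∈ P, l1 ≠ l + a * u) (a b : K) (ha : a ∈ P)
    (hb : b ∈ P) (hx : x = l + a * u) (hy : y = l + b * u) (hxy : x ≠ y) :
    (x - l1) / (y - l1) ∉ P := by
  intro hc
  set c := (x - l1) / (y - l1) with hcd
  have hy1 : y - l1 ≠ 0 := by
    intro h0
    exact hl1 b hb (by rw [← hy]; exact (sub_eq_zero.1 h0).symm)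
  have h1 : x - l1 = c * (y - l1) := by rw [hcd, div_mul_cancel₀ _ hy1]
  have hc1 : c - 1 ≠ 0 := by
    intro h0
    apply hxy
    have h2 : c = 1 := by linear_combination h0
    rw [h2, one_mul] at h1
    linear_combination h1
  apply hl1 ((c * b - a) / (c - 1)) (div_mem (sub_mem (mul_mem hc hb) ha) (sub_mem hc (one_mem P)))
  field_simp
  rw [hx, hy] at h1
  linear_combination h1

end

open Classical in
theorem cho : S_CHO.{u} := by
  intro m N₀ η hη
  obtain ⟨M, hM⟩ := exists_nat_ge ((2 / η) * (N₀ + 1 / η + 1) + N₀)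
  refine ⟨m * (M + 2) + 1, ?_⟩
  intro K _ P Z F hF hfib ⟨x₁, hx₁, x₂, hx₂, x₃, hx₃, h12, h13, h23, hnP⟩ hB
  have hη2 : 0 < 2 / η := by positivity
  have hMN : (N₀ : ℝ) ≤ M := by
    have : 0 ≤ (2 / η) * (N₀ + 1 / η + 1) := by positivity
    linarith
  have hM1 : (N₀ : ℝ) + 1 / η + 1 ≤ η / 2 * M := by
    have h1 : (2 / η) * (N₀ + 1 / η + 1) ≤ M := by
      have : (0 : ℝ) ≤ N₀ := Nat.cast_nonneg _
      linarith
    calc (N₀ : ℝ) + 1 / η + 1 = η / 2 * ((2 / η) * (N₀ + 1 / η + 1)) := by
          field_simp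
      _ ≤ η / 2 * M := by gcongr
  -- a section
  have hcardim : Z.card ≤ m * (Z.image F).card := by
    apply card_le_mul_card_image
    intro b hb
    obtain ⟨z, hz, rfl⟩ := mem_image.1 hb
    exact hfib _ (hF z hz)
  have him : M + 2 < (Z.image F).card := by
    by_contra hlt
    have : m * (Z.image F).card ≤ m * (M + 2) := Nat.mul_le_mul_left _ (not_lt.1 hlt)
    omega
  obtain ⟨X, hXZ, hXinj, hXim⟩ := Finset.exists_subset_injOn_image_eq_of_surjOn (f := F) (Z : Set K)
    (Z.image F) (by rw [coe_image]; exact Set.surjOn_image F _)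
  have hXcard : M + 2 < X.card := by
    rw [← hXim, card_image_of_injOn hXinj] at him
    exact him
  have hXZ' : X ⊆ Z := by exact_mod_cast hXZ
  -- the first point
  set X' := (X.erase x₁).filter (fun x => F x ≠ F x₁) with hX'
  have hX'X : X' ⊆ X := (filter_subset _ _).trans (erase_subset _ _)
  have hdrop : ∀ (W : Finset K), W ⊆ X → ∀ b : K, W.card ≤ (W.filter (fun x => F x ≠ b)).card + 1 := by
    intro W hW b
    have h1 := card_filter_add_card_filter_not (s := W) (p := fun x => F x ≠ b)
    have h2 : (W.filter (fun x => ¬ (F x ≠ b))).card ≤ 1 := by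
      rw [card_le_one]
      intro x hx y hy
      rw [mem_filter, not_not] at hx hy
      exact hXinj (hW hx.1) (hW hy.1) (hx.2.trans hy.2.symm)
    omega
  have hX'card : M < X'.card := by
    have h1 : (X.erase x₁).card ≤ X'.card + 1 := by
      rw [hX']
      convert hdrop (X.erase x₁) (erase_subset _ _) (F x₁)
    have h2 := pred_card_le_card_erase (s := X) (a := x₁)
    omega
  have hX'R : (M : ℝ) ≤ X'.card := by exact_mod_cast hX'card.le
  have hne : ∀ x ∈ X', x ≠ x₁ := by
    intro x hx
    rw [hX', mem_filter, mem_erase] at hx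
    exact hx.1.1
  set cl : K → Finset K := fun x => X'.filter (fun y => (x - x₁) / (y - x₁) ∈ P) with hcl
  by_cases hA : ∀ x ∈ X', ((cl x).card : ℝ) ≤ η / 2 * X'.card
  · refine ⟨x₁, hx₁, X', hX'X.trans hXZ', ?_, ?_, ?_, ?_⟩
    · intro h
      exact hne _ h rfl
    · have : (N₀ : ℝ) ≤ X'.card := by linarith
      exact_mod_cast this
    · intro x hx y hy hxy
      rw [Set.mem_insert_iff, mem_coe] at hx hy
      rcases hx with rfl | hx <;> rcases hy with rfl | hy
      · rfl
      · rw [hX', mem_filter] at hy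
        exact absurd hxy.symm hy.2
      · rw [hX', mem_filter] at hx
        exact absurd hxy hx.2
      · exact hXinj (hX'X hx) (hX'X hy) hxy
    · have h1 : ((X' ×ˢ X').filter fun w => w.1 = w.2 ∨ (w.1 - x₁) / (w.2 - x₁) ∈ P).card ≤
          ∑ x ∈ X', (cl x).card := by
        rw [card_eq_sum_card_fiberwise (f := fun w : K × K => w.1) (t := X')
          (fun w hw => by
            have := mem_coe.1 hw
            rw [mem_filter, mem_product] at this
            exact this.1.1)]
        apply sum_le_sum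
        intro x hx
        apply card_le_card_of_injOn (fun w => w.2)
        · intro w hw
          rw [mem_coe, mem_filter, mem_filter, mem_product] at hw
          obtain ⟨⟨⟨h2, h3⟩, h4⟩, h5⟩ := hw
          rw [mem_coe, hcl, mem_filter]
          refine ⟨h3, ?_⟩
          show (x - x₁) / (w.2 - x₁) ∈ P
          rw [← h5]
          rcases h4 with h4 | h4
          · rw [← h4]
            exact rel_refl P (hne _ h2)
          · exact h4
        · intro w hw w' hw' h
          rw [mem_coe, mem_filter] at hw hw'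
          exact Prod.ext (hw.2.trans hw'.2.symm) h
      calc (((X' ×ˢ X').filter fun w => w.1 = w.2 ∨ (w.1 - x₁) / (w.2 - x₁) ∈ P).card : ℝ)
          ≤ ((∑ x ∈ X', (cl x).card : ℕ) : ℝ) := by exact_mod_cast h1
        _ = ∑ x ∈ X', ((cl x).card : ℝ) := by push_cast; rfl
        _ ≤ ∑ x ∈ X', η / 2 * X'.card := sum_le_sum hA
        _ = η / 2 * (X'.card : ℝ) ^ 2 := by
            rw [sum_const, nsmul_eq_mul]
            ring
        _ ≤ η * (X'.card : ℝ) ^ 2 := by
            have : 0 ≤ (X'.card : ℝ) ^ 2 := by positivity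
            nlinarith
  · push Not at hA
    obtain ⟨x₀, hx₀, hbig⟩ := hA
    set u := x₀ - x₁ with hu
    have hu0 : u ≠ 0 := sub_ne_zero.2 (hne _ hx₀)
    have hline : ∀ y ∈ cl x₀, ∃ a ∈ P, y = x₁ + a * u := by
      intro y hy
      rw [hcl, mem_filter] at hy
      have h1 := rel_symm P hy.2
      refine ⟨(y - x₁) / (x₀ - x₁), h1, ?_⟩
      rw [hu, div_mul_cancel₀ _ (sub_ne_zero.2 (hne _ hx₀))]
      ring
    obtain ⟨l1, hl1Z, hl1⟩ : ∃ l1 ∈ Z, ∀ a ∈ P, l1 ≠ x₁ + a * u := by
      by_contra hcon
      push Not at hcon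
      obtain ⟨a, ha, h1⟩ := hcon x₂ hx₂
      obtain ⟨b, hb, h2⟩ := hcon x₃ hx₃
      apply hnP
      have hb0 : b ≠ 0 := by
        rintro rfl
        apply h13
        rw [h2]
        ring
      have : (x₁ - x₂) / (x₁ - x₃) = a / b := by
        rw [h1, h2]
        field_simp
        ring
      rw [this]
      exact div_mem ha hb
    set Y := (cl x₀).filter (fun x => F x ≠ F l1) with hY
    have hclX : cl x₀ ⊆ X := (filter_subset _ _).trans hX'X
    have hYX : Y ⊆ X := (filter_subset _ _).trans hclX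
    have hYcard : (N₀ : ℝ) + 1 / η ≤ Y.card := by
      have h1 := hdrop (cl x₀) hclX (F l1)
      have h2 : ((cl x₀).card : ℝ) ≤ Y.card + 1 := by exact_mod_cast h1
      have h3 : η / 2 * M ≤ η / 2 * X'.card := by gcongr
      linarith
    refine ⟨l1, hl1Z, Y, hYX.trans hXZ', ?_, ?_, ?_, ?_⟩
    · intro h
      rw [hY, mem_filter] at h
      exact h.2 rfl
    · have : (N₀ : ℝ) ≤ Y.card := by
        have : 0 ≤ 1 / η := by positivity
        linarith
      exact_mod_cast this
    · intro x hx y hy hxy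
      rw [Set.mem_insert_iff, mem_coe] at hx hy
      rcases hx with rfl | hx <;> rcases hy with rfl | hy
      · rfl
      · rw [hY, mem_filter] at hy
        exact absurd hxy.symm hy.2
      · rw [hY, mem_filter] at hx
        exact absurd hxy hx.2
      · exact hXinj (hYX hx) (hYX hy) hxy
    · have h1 : ((Y ×ˢ Y).filter fun w => w.1 = w.2 ∨ (w.1 - l1) / (w.2 - l1) ∈ P).card ≤ Y.card := by
        apply card_le_card_of_injOn (fun w => w.1)
        · intro w hw
          rw [mem_coe, mem_filter, mem_product] at hw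
          exact hw.1.1
        · intro w hw w' hw' h
          rw [mem_coe, mem_filter, mem_product] at hw hw'
          have key : ∀ w : K × K, ((w.1 ∈ Y ∧ w.2 ∈ Y) ∧ (w.1 = w.2 ∨ (w.1 - l1) / (w.2 - l1) ∈ P)) →
              w.1 = w.2 := by
            rintro w ⟨⟨h2, h3⟩, h4⟩
            rcases h4 with h4 | h4
            · exact h4
            · by_contra hne'
              obtain ⟨a, ha, h5⟩ := hline _ (mem_filter.1 h2).1
              obtain ⟨b, hb, h6⟩ := hline _ (mem_filter.1 h3).1
              exact off_line P hl1 a b ha hb h5 h6 hne' h4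
          have k1 := key w hw
          have k2 := key w' hw'
          exact Prod.ext h (by rw [← k1, ← k2]; exact h)
      have hY0 : 1 / η ≤ (Y.card : ℝ) := by
        have : (0 : ℝ) ≤ N₀ := Nat.cast_nonneg _
        linarith
      have h2 : 1 ≤ η * Y.card := by
        rw [div_le_iff₀ hη] at hY0
        linarith
      calc (((Y ×ˢ Y).filter fun w => w.1 = w.2 ∨ (w.1 - l1) / (w.2 - l1) ∈ P).card : ℝ)
          ≤ Y.card := by exact_mod_cast h1
        _ = 1 * Y.card := by ring
        _ ≤ (η * Y.card) * Y.card := by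
            apply mul_le_mul_of_nonneg_right h2 (Nat.cast_nonneg _)
        _ = η * (Y.card : ℝ) ^ 2 := by ring

end Pool.Agent.P8H62.IU
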