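import Mathlib
import Pool.Agent.P8H67.IU.Stm

/-!
# Project IU, package GEO: existence of the smallest disc
-/

set_option autoImplicit false

namespace Pool.Agent.P8H62.IU.GeoAux

open Polynomial

universe u

variable {L : Type u} [NormedField L] [IsUltrametricDist L]

/-- the ultrametric inequality for differences -/
lemma nsub (x y : L) : ‖x - y‖ ≤ max ‖x‖ ‖y‖ := by
  rw [sub_eq_add_neg, ← norm_neg y]
  exact IsUltrametricDist.norm_add_le_max _ _

/-- bound of the coefficients of a product of linear factors -/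
lemma coeff_le (r : ℝ) (hr : 0 ≤ r) (s : Multiset L) : (∀ u ∈ s, ‖u‖ ≤ r) →
    ∀ i, i ≤ Multiset.card s →
    ‖(s.map fun u => X - C u).prod.coeff i‖ ≤ r ^ (Multiset.card s - i) := by
  induction s using Multiset.induction_on with
  | empty =>
    intro _ i hi
    have : i = 0 := by simpa using hi
    subst this
    simp
  | cons u s ih =>
    intro h i hi
    have hu : ‖u‖ ≤ r := h u (Multiset.mem_cons_self u s)
    have hs := ih (fun w hw => h w (Multiset.mem_cons_of_mem hw))
    rw [Multiset.map_cons, Multiset.prod_cons, Multiset.card_cons]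
    rw [Multiset.card_cons] at hi
    have hdeg : (s.map fun u => X - C u).prod.natDegree = Multiset.card s :=
      natDegree_multiset_prod_X_sub_C_eq_card s
    set P := (s.map fun u => X - C u).prod with hP
    set n := Multiset.card s with hn
    rcases Nat.eq_zero_or_pos i with hi0 | hi0
    · subst hi0
      rw [mul_coeff_zero]
      have h0 := hs 0 (Nat.zero_le _)
      simp only [coeff_sub, coeff_X_zero, coeff_C_zero, zero_sub, norm_mul, norm_neg]
      rw [Nat.sub_zero, pow_succ']
      rw [Nat.sub_zero] at h0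
      exact mul_le_mul hu h0 (norm_nonneg _) hr
    · obtain ⟨j, rfl⟩ : ∃ j, i = j + 1 := ⟨i - 1, by omega⟩
      rw [coeff_X_sub_C_mul]
      have h1 := hs j (by omega)
      have he : n + 1 - (j + 1) = n - j := by omega
      rw [he]
      refine (nsub _ _).trans (max_le h1 ?_)
      rw [norm_mul]
      by_cases hj : j + 1 ≤ n
      · have h2 := hs (j + 1) hj
        have he2 : n - j = (n - (j + 1)) + 1 := by omega
        rw [he2, pow_succ']
        exact mul_le_mul hu h2 (norm_nonneg _) hr
      · have : P.coeff (j + 1) = 0 := coeff_eq_zero_of_natDegree_lt (by omega)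
        rw [this]
        simp [pow_nonneg hr]

omit [IsUltrametricDist L] in
/-- a bound of finitely many elements -/
lemma exists_bd (R : ℝ) (hR : 0 < R) (s : Multiset L) : (∀ u ∈ s, ‖u‖ < R) →
    ∃ r, 0 ≤ r ∧ r < R ∧ ∀ u ∈ s, ‖u‖ ≤ r := by
  induction s using Multiset.induction_on with
  | empty => intro _; exact ⟨0, le_rfl, hR, by simp⟩
  | cons u s ih =>
    intro h
    obtain ⟨r, h0, h1, h2⟩ := ih (fun w hw => h w (Multiset.mem_cons_of_mem hw))
    refine ⟨max r ‖u‖, le_max_of_le_left h0, max_lt h1 (h u (Multiset.mem_cons_self u s)), ?_⟩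
    intro w hw
    rcases Multiset.mem_cons.1 hw with rfl | hw
    · exact le_max_right _ _
    · exact (h2 w hw).trans (le_max_left _ _)

/-- the norm of a value far from the centre -/
lemma norm_eval (g : L[X]) (d : ℕ) (hg : g.Monic) (hd : g.natDegree = d) (h2 : 2 ≤ d) (x₀ : L)
    (R : ℝ) (hR : 1 ≤ R) (hb : ∀ i, 1 ≤ i → i < d → ‖g.coeff i‖ ≤ R ^ (d - i)) (u : L)
    (hu : R < ‖u‖) (h0 : ‖g.coeff 0 - x₀‖ ≤ ‖u‖) : ‖g.eval u - x₀‖ = ‖u‖ ^ d := by
  have hR0 : 0 < R := by linarith
  have hu1 : 1 < ‖u‖ := by linarith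
  have hu0 : 0 < ‖u‖ := by linarith
  have hlt : ∀ i ∈ Finset.range d, ‖(g - C x₀).coeff i * u ^ i‖ < ‖u‖ ^ d := by
    intro i hi
    have hi' : i < d := Finset.mem_range.1 hi
    rcases Nat.eq_zero_or_pos i with h | h
    · subst h
      rw [pow_zero, mul_one, coeff_sub, coeff_C_zero]
      calc ‖g.coeff 0 - x₀‖ ≤ ‖u‖ := h0
        _ = ‖u‖ ^ 1 := (pow_one _).symm
        _ < ‖u‖ ^ d := pow_lt_pow_right₀ hu1 (by omega)
    · rw [coeff_sub, coeff_C_of_ne_zero (by omega : i ≠ 0), sub_zero, norm_mul, norm_pow]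
      calc ‖g.coeff i‖ * ‖u‖ ^ i ≤ R ^ (d - i) * ‖u‖ ^ i :=
            mul_le_mul_of_nonneg_right (hb i h hi') (pow_nonneg hu0.le _)
        _ < ‖u‖ ^ (d - i) * ‖u‖ ^ i :=
            mul_lt_mul_of_pos_right (pow_lt_pow_left₀ hu hR0.le (by omega)) (pow_pos hu0 _)
        _ = ‖u‖ ^ d := by rw [← pow_add]; congr 1; omega
  have hne : (Finset.range d).Nonempty := ⟨0, Finset.mem_range.2 (by omega)⟩
  have hs : ‖∑ i ∈ Finset.range d, (g - C x₀).coeff i * u ^ i‖ < ‖u‖ ^ d := by
    obtain ⟨i, hi, hle⟩ := IsUltrametricDist.exists_norm_finsetSum_le_of_nonempty hne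
      (fun i => (g - C x₀).coeff i * u ^ i)
    exact hle.trans_lt (hlt i hi)
  have hdeg : (g - C x₀).natDegree = d := by rw [natDegree_sub_C, hd]
  have hlead : (g - C x₀).coeff d = 1 := by
    rw [coeff_sub, coeff_C_of_ne_zero (by omega : d ≠ 0), sub_zero, ← hd]
    exact hg.coeff_natDegree
  have hev : g.eval u - x₀ = ∑ i ∈ Finset.range d, (g - C x₀).coeff i * u ^ i + u ^ d := by
    have : g.eval u - x₀ = (g - C x₀).eval u := by simp
    rw [this, eval_eq_sum_range, hdeg, Finset.sum_range_succ, hlead, one_mul]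
  rw [hev]
  have hp : ‖u ^ d‖ = ‖u‖ ^ d := norm_pow _ _
  have := IsUltrametricDist.norm_add_eq_max_of_norm_ne_norm
    (x := ∑ i ∈ Finset.range d, (g - C x₀).coeff i * u ^ i) (y := u ^ d) (by rw [hp]; exact hs.ne)
  rw [this, hp]
  exact max_eq_right hs.le

end Pool.Agent.P8H62.IU.GeoAux

namespace Pool.Agent.P8H62.IU

open Polynomial GeoAux Pool.Agent.P8H67.IU

universe u

theorem geo : S_GEO.{u} := by
  intro L _ _ _ f d hf hd h2 x₀ hB R hR hb hatt
  set g := f.comp (X + C x₀) with hg
  have hgm : g.Monic := hf.comp_X_add_C x₀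
  have hgd : g.natDegree = d := by
    rw [hg, natDegree_comp, natDegree_X_add_C, mul_one, hd]
  have hge : ∀ z, g.eval (z - x₀) = f.eval z := by
    intro z
    rw [hg, eval_comp]
    simp
  have hg0 : g.coeff 0 = f.eval x₀ := by
    rw [coeff_zero_eq_eval_zero, hg, eval_comp]
    simp
  -- the constant coefficient
  have hb0 : ‖g.coeff 0 - x₀‖ ≤ R := by
    by_contra hcon
    push Not at hcon
    set M := ‖g.coeff 0 - x₀‖ with hM
    have hM1 : 1 < M := by linarith
    have key : ∀ n : ℕ, M ^ (n + 1) ≤ ‖(fun z => f.eval z)^[n + 1] x₀ - x₀‖ := by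
      intro n
      induction n with
      | zero =>
        simp only [zero_add, pow_one, Function.iterate_one]
        rw [hM, hg0]
      | succ n ih =>
        rw [Function.iterate_succ_apply']
        set y := (fun z => f.eval z)^[n + 1] x₀ with hy
        have hMy : M ≤ ‖y - x₀‖ := by
          refine le_trans ?_ ih
          exact le_self_pow₀ hM1.le (Nat.succ_ne_zero n)
        have := norm_eval g d hgm hgd h2 x₀ R hR hb (y - x₀) (by linarith) hMy
        rw [hge] at this
        change M ^ (n + 1 + 1) ≤ ‖f.eval y - x₀‖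
        rw [this]
        have hy1 : 1 ≤ ‖y - x₀‖ := by linarith
        calc M ^ (n + 1 + 1) = M ^ (n + 1) * M := pow_succ _ _
          _ ≤ ‖y - x₀‖ * ‖y - x₀‖ := mul_le_mul ih hMy (by linarith) (by linarith)
          _ = ‖y - x₀‖ ^ 2 := (sq _).symm
          _ ≤ ‖y - x₀‖ ^ d := pow_le_pow_right₀ hy1 h2
    obtain ⟨B, hB⟩ := hB
    obtain ⟨n, hn⟩ := pow_unbounded_of_one_lt B hM1
    have h1 := key n
    have h2 := hB (n + 1)
    have h3 : M ^ n ≤ M ^ (n + 1) := pow_le_pow_right₀ hM1.le (Nat.le_succ n)
    linarith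
  have hesc : ∀ z, R < ‖z - x₀‖ → ‖f.eval z - x₀‖ = ‖z - x₀‖ ^ d := by
    intro z hz
    rw [← hge z]
    exact norm_eval g d hgm hgd h2 x₀ R hR hb (z - x₀) hz (hb0.trans hz.le)
  have hinn : ∀ a η, ‖a - x₀‖ ≤ R → f.eval η = a → ‖η - x₀‖ ≤ R := by
    intro a η ha hη
    by_contra hcon
    push Not at hcon
    have h1 := hesc η hcon
    rw [hη] at h1
    have h3 : ‖η - x₀‖ ≤ ‖η - x₀‖ ^ d :=
      le_self_pow₀ (by linarith) (by omega)
    linarith
  refine ⟨hR, ?_, hinn, ?_⟩
  · rw [hd]; exact hesc
  · intro hR1 a q ha hq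
    obtain hR' | ⟨i, hi1, hid, hi⟩ := hatt
    · exact absurd hR' hR1.ne'
    by_contra hcon
    push Not at hcon
    have hR0 : 0 < R := by linarith
    -- the roots
    set P := g - C a with hP
    have hPd : P.natDegree = d := by rw [hP, natDegree_sub_C, hgd]
    have hPm : P.Monic := by
      rw [hP, Polynomial.Monic, leadingCoeff, natDegree_sub_C, hgd, coeff_sub,
        coeff_C_of_ne_zero (by omega : d ≠ 0), sub_zero, ← hgd]
      exact hgm.coeff_natDegree
    have hsplit : P.Splits := IsAlgClosed.splits P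
    have hcard : Multiset.card P.roots = d := by
      rw [← hPd]; exact (splits_iff_card_roots.1 hsplit)
    have hprod : (P.roots.map fun u => X - C u).prod = P := by
      exact (prod_multiset_X_sub_C_of_monic_of_roots_card_eq hPm (by rw [hcard, hPd]))
    have hroot : ∀ u ∈ P.roots, ‖u - (q - x₀)‖ < R := by
      intro u hu
      have hu0 : P.eval u = 0 := (isRoot_of_mem_roots hu)
      have hfa : f.eval (u + x₀) = a := by
        have := hge (u + x₀)
        rw [add_sub_cancel_right] at this
        rw [← this]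
        rw [hP, eval_sub, eval_C, sub_eq_zero] at hu0
        exact hu0
      have h1 := hcon (u + x₀) hfa
      have h3 : ‖u‖ ≤ R := by
        have := hinn a (u + x₀) ha hfa
        rwa [add_sub_cancel_right] at this
      have h4 : u + x₀ - q = u - (q - x₀) := by ring
      rw [h4] at h1
      refine lt_of_le_of_ne ?_ h1
      exact (nsub _ _).trans (max_le h3 hq)
    rcases lt_or_eq_of_le hq with hs | hs
    · have hsm : ∀ u ∈ P.roots, ‖u‖ < R := by
        intro u hu
        have : u = (u - (q - x₀)) + (q - x₀) := by ring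
        rw [this]
        exact (IsUltrametricDist.norm_add_le_max _ _).trans_lt (max_lt (hroot u hu) hs)
      obtain ⟨r, hr0, hrR, hr⟩ := exists_bd R hR0 P.roots hsm
      have hc := coeff_le r hr0 P.roots hr i (by rw [hcard]; omega)
      rw [hprod, hcard] at hc
      have hci : P.coeff i = g.coeff i := by
        rw [hP, coeff_sub, coeff_C_of_ne_zero (by omega : i ≠ 0), sub_zero]
      rw [hci, hi] at hc
      have : r ^ (d - i) < R ^ (d - i) := pow_lt_pow_left₀ hrR hr0 (by omega)
      linarith
    · have hsm : ∀ u ∈ P.roots, ‖u‖ = R := by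
        intro u hu
        have h1 := hroot u hu
        have : u = (u - (q - x₀)) + (q - x₀) := by ring
        rw [this]
        have h5 := IsUltrametricDist.norm_add_eq_max_of_norm_ne_norm
          (x := u - (q - x₀)) (y := q - x₀) (by rw [hs]; exact h1.ne)
        rw [h5, hs]
        exact max_eq_right h1.le
      have hc0 : ‖P.coeff 0‖ = R ^ d := by
        rw [coeff_zero_eq_eval_zero, ← hprod, eval_multiset_prod, Multiset.map_map]
        have : ‖(Multiset.map (eval 0 ∘ fun u => X - C u) P.roots).prod‖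
            = (Multiset.map (fun u => ‖u‖) P.roots).prod := by
          have h6 := map_multiset_prod (normHom : L →*₀ ℝ)
            (Multiset.map (eval 0 ∘ fun u => X - C u) P.roots)
          rw [Multiset.map_map] at h6
          change normHom (Multiset.map (eval 0 ∘ fun u => X - C u) P.roots).prod = _
          rw [h6]
          congr 1
          refine Multiset.map_congr rfl ?_
          intro u _
          simp
        rw [this, Multiset.map_congr rfl hsm]
        simp [hcard]
      have hc1 : ‖P.coeff 0‖ ≤ R := by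
        have : P.coeff 0 = (g.coeff 0 - x₀) - (a - x₀) := by
          rw [hP, coeff_sub, coeff_C_zero]; ring
        rw [this]
        exact (nsub _ _).trans (max_le hb0 ha)
      have hc2 : R < R ^ d := by
        calc R = R ^ 1 := (pow_one _).symm
          _ < R ^ d := pow_lt_pow_right₀ hR1 (by omega)
      linarith

end Pool.Agent.P8H62.IU
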