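import Pool.Agent.P8H67.IU.Stm

set_option autoImplicit false

namespace Pool.Agent.P8H62.IU

open Finset Pool.Agent.P8H67.IU Pool.Agent.P8H29.UI

universe u v w

section

variable {p : ℕ} {k : Type u} {K : Type v} [Field k] [Field K] [Algebra k K]
  (Q : PC.{u, v, w} p k K)

theorem pc_ord_one (v : Q.Pl) : Q.ord v 1 = 0 := by
  have h := Q.ord_mul v 1 1 one_ne_zero one_ne_zero
  rw [mul_one] at h
  omega

theorem pc_ord_div (v : Q.Pl) {x y : K} (hx : x ≠ 0) (hy : y ≠ 0) :
    Q.ord v (x / y) = Q.ord v x - Q.ord v y := by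
  have h := Q.ord_mul v (x / y) y (div_ne_zero hx hy) hy
  rw [div_mul_cancel₀ _ hy] at h
  omega

/-- logarithmic derivative of a quotient -/
theorem logd (D : Derivation k K K) {x y : K} (hx : x ≠ 0) (hy : y ≠ 0) :
    D (x / y) / (x / y) = D x / x - D y / y := by
  have h : D (x / y * y) = (x / y) * D y + y * D (x / y) := by
    rw [D.leibniz, smul_eq_mul, smul_eq_mul]
  rw [div_mul_cancel₀ _ hy] at h
  rw [h]
  field_simp
  ring

theorem ordL (v : Q.Pl) {x y : K} (hx : x ≠ 0) (hy : y ≠ 0) (hL : Q.D (x / y) / (x / y) ≠ 0) :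
    -1 - Q.ls v ≤ Q.ord v (Q.D (x / y) / (x / y)) ∧
    (Q.ord v x = Q.ord v y → - Q.ls v ≤ Q.ord v (Q.D (x / y) / (x / y))) := by
  have hxy : x / y ≠ 0 := div_ne_zero hx hy
  have hD : Q.D (x / y) ≠ 0 := by
    intro h
    rw [h, zero_div] at hL
    exact hL rfl
  rw [pc_ord_div Q v hD hxy]
  refine ⟨?_, fun h => ?_⟩
  · have := Q.D_ord v (x / y) hxy hD
    omega
  · have h0 : Q.ord v (x / y) = 0 := by rw [pc_ord_div Q v hx hy]; omega
    have := Q.D_ord' v (x / y) hxy hD h0.ge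
    omega

end

theorem mas : S_MAS.{u} := by
  classical
  intro p _ k K _ _ _ _ Q a b c ha hb hc habc hn S S' hS hS'
  -- the logarithmic derivatives
  have hab := logd Q.D ha hb
  have hbc := logd Q.D hb hc
  have hca := logd Q.D hc ha
  set Lab := Q.D (a / b) / (a / b) with hLab
  set Lbc := Q.D (b / c) / (b / c) with hLbc
  set Lca := Q.D (c / a) / (c / a) with hLca
  have hab0 : Lab ≠ 0 := by
    intro h
    have h1 : Q.D (a / b) = 0 := by
      rw [hLab] at h
      rcases div_eq_zero_iff.1 h with h | h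
      · exact h
      · exact absurd h (div_ne_zero ha hb)
    exact hn (Q.D_ker _ h1)
  have hDsum : Q.D a + Q.D b + Q.D c = 0 := by
    rw [← map_add, ← map_add, habc, map_zero]
  have e1 : a * Lab = c * Lbc := by
    rw [hab, hbc]
    have h1 : a * (Q.D a / a - Q.D b / b) - c * (Q.D b / b - Q.D c / c) =
        Q.D a + Q.D c - (a + c) * (Q.D b / b) := by
      field_simp
      ring
    have h2 : a + c = -b := by linear_combination habc
    rw [← sub_eq_zero, h1, h2]
    field_simp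
    linear_combination hDsum
  have e2 : b * Lab = c * Lca := by
    rw [hab, hca]
    have h1 : b * (Q.D a / a - Q.D b / b) - c * (Q.D c / c - Q.D a / a) =
        (b + c) * (Q.D a / a) - (Q.D b + Q.D c) := by
      field_simp
      ring
    have h2 : b + c = -a := by linear_combination habc
    rw [← sub_eq_zero, h1, h2]
    field_simp
    linear_combination -hDsum
  have hbc0 : Lbc ≠ 0 := by
    intro h
    rw [h, mul_zero] at e1
    exact (mul_ne_zero ha hab0) e1
  have hca0 : Lca ≠ 0 := by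
    intro h
    rw [h, mul_zero] at e2
    exact (mul_ne_zero hb hab0) e2
  set μ := c / Lab with hμ
  have hμ0 : μ ≠ 0 := div_ne_zero hc hab0
  have f1 : a = μ * Lbc := by
    rw [hμ, div_mul_eq_mul_div, ← e1, mul_div_cancel_right₀ _ hab0]
  have f2 : b = μ * Lca := by
    rw [hμ, div_mul_eq_mul_div, ← e2, mul_div_cancel_right₀ _ hab0]
  have f3 : c = μ * Lab := by
    rw [hμ, div_mul_cancel₀ _ hab0]
  have o1 : ∀ v, Q.ord v a = Q.ord v μ + Q.ord v Lbc := fun v => by
    conv_lhs => rw [f1]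
    exact Q.ord_mul v _ _ hμ0 hbc0
  have o2 : ∀ v, Q.ord v b = Q.ord v μ + Q.ord v Lca := fun v => by
    conv_lhs => rw [f2]
    exact Q.ord_mul v _ _ hμ0 hca0
  have o3 : ∀ v, Q.ord v c = Q.ord v μ + Q.ord v Lab := fun v => by
    conv_lhs => rw [f3]
    exact Q.ord_mul v _ _ hμ0 hab0
  have key : ∀ v, max (-Q.ord v a) (max (-Q.ord v b) (-Q.ord v c)) ≤
      -Q.ord v μ + Q.ls v + (if v ∈ S then 1 else 0) := by
    intro v
    obtain ⟨b1, b1'⟩ := ordL Q v hb hc hbc0
    obtain ⟨b2, b2'⟩ := ordL Q v hc ha hca0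
    obtain ⟨b3, b3'⟩ := ordL Q v ha hb hab0
    rw [← hLbc] at b1 b1'
    rw [← hLca] at b2 b2'
    rw [← hLab] at b3 b3'
    rw [max_le_iff, max_le_iff, o1, o2, o3]
    split_ifs with hv
    · omega
    · obtain ⟨h1, h2⟩ := hS v hv
      have c1 := b1' h2
      have c2 := b2' (h1.trans h2).symm
      have c3 := b3' h1
      omega
  have hfin := Q.fin μ hμ0
  set W : Finset Q.Pl := (S' ∪ S) ∪ (Q.lsS ∪ hfin.toFinset) with hW
  have hW1 : S' ⊆ W := fun v hv => by simp [hW, hv]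
  have hW2 : S ⊆ W := fun v hv => by simp [hW, hv]
  have hW3 : Q.lsS ⊆ W := fun v hv => by simp [hW, hv]
  have hW4 : ∀ v, v ∉ W → Q.ord v μ = 0 := by
    intro v hv
    by_contra h
    apply hv
    simp [hW, h]
  have s1 : ∑ v ∈ S', Q.wt v * max (-Q.ord v a) (max (-Q.ord v b) (-Q.ord v c)) =
      ∑ v ∈ W, Q.wt v * max (-Q.ord v a) (max (-Q.ord v b) (-Q.ord v c)) := by
    apply sum_subset hW1
    intro v _ hv
    obtain ⟨h1, h2, h3⟩ := hS' v hv
    rw [h1, h2, h3]
    simp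
  have s2 : ∑ v ∈ W, Q.wt v * Q.ord v μ = 0 := Q.sum μ hμ0 W hW4
  have s3 : ∑ v ∈ W, Q.wt v * Q.ls v = Q.T := by
    rw [← Q.ls_sum]
    symm
    apply sum_subset hW3
    intro v _ hv
    rw [Q.ls_supp v hv, mul_zero]
  have s4 : ∑ v ∈ W, Q.wt v * (if v ∈ S then 1 else 0) = ∑ v ∈ S, Q.wt v := by
    simp only [mul_ite, mul_one, mul_zero]
    rw [← sum_filter]
    congr 1
    ext v
    rw [mem_filter]
    exact ⟨fun h => h.2, fun h => ⟨hW2 h, h⟩⟩
  rw [s1]
  calc ∑ v ∈ W, Q.wt v * max (-Q.ord v a) (max (-Q.ord v b) (-Q.ord v c))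
      ≤ ∑ v ∈ W, Q.wt v * (-Q.ord v μ + Q.ls v + (if v ∈ S then 1 else 0)) := by
        apply sum_le_sum
        intro v _
        exact mul_le_mul_of_nonneg_left (key v) (by have := Q.wt_one v; omega)
    _ = -(∑ v ∈ W, Q.wt v * Q.ord v μ) + ∑ v ∈ W, Q.wt v * Q.ls v +
        ∑ v ∈ W, Q.wt v * (if v ∈ S then 1 else 0) := by
        rw [← sum_neg_distrib, ← sum_add_distrib, ← sum_add_distrib]
        apply sum_congr rfl
        intro v _
        ring
    _ = Q.T + ∑ v ∈ S, Q.wt v := by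
        rw [s2, s3, s4]
        ring

end Pool.Agent.P8H62.IU
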